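import Mathlib

set_option autoImplicit false
set_option maxHeartbeats 400000

open Matrix

namespace Pool.Agent.Results.MP_427463_al.Q16

abbrev Q := QuaternionGroup 4
abbrev Z := ℤ_[2]
abbrev V := Fin 8 → ℤ_[2]

def tb : List (List (List ℤ)) := [
  [[1, 0, 0, 0, 0, 0, 0, 0], [0, 1, 0, 0, 0, 0, 0, 0], [0, 0, 1, 0, 0, 0, 0, 0], [0, 0, 0, 1, 0, 0, 0, 0], [0, 0, 0, 0, 1, 0, 0, 0], [0, 0, 0, 0, 0, 1, 0, 0], [0, 0, 0, 0, 0, 0, 1, 0], [0, 0, 0, 0, 0, 0, 0, 1]],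
  [[-1, -2, 0, 0, 0, 0, 0, 0], [1, 1, 0, 0, 0, 1, 0, 0], [0, 0, 0, -1, 0, 0, 0, 0], [0, 0, 1, 0, 0, 0, 0, 2], [0, 0, 0, 0, 0, -1, 0, 0], [1, 2, 0, 0, 1, 0, 0, 0], [0, 0, 0, 0, 0, 0, 0, -1], [0, 0, 0, 1, 0, 0, 1, 0]],
  [[-1, 0, 0, 0, 0, -2, 0, 0], [1, 1, 0, 0, 1, 1, 0, 0], [0, 0, -1, 0, 0, 0, 0, -2], [0, 0, 0, 1, 0, 0, 2, 0], [-1, -2, 0, 0, -1, 0, 0, 0], [1, 0, 0, 0, 0, 1, 0, 0], [0, 0, 0, -1, 0, 0, -1, 0], [0, 0, 1, 0, 0, 0, 0, 1]],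
  [[-1, -2, 0, 0, -2, 0, 0, 0], [1, 1, 0, 0, 1, 0, 0, 0], [0, 0, 0, -1, 0, 0, -2, 0], [0, 0, 1, 0, 0, 0, 0, 0], [-1, 0, 0, 0, 0, -1, 0, 0], [0, 0, 0, 0, 1, 0, 0, 0], [0, 0, -1, 0, 0, 0, 0, -1], [0, 0, 0, 0, 0, 0, 1, 0]],
  [[-1, 0, 0, 0, 0, 0, 0, 0], [0, -1, 0, 0, 0, 0, 0, 0], [0, 0, -1, 0, 0, 0, 0, 0], [0, 0, 0, -1, 0, 0, 0, 0], [0, 0, 0, 0, -1, 0, 0, 0], [0, 0, 0, 0, 0, -1, 0, 0], [0, 0, 0, 0, 0, 0, -1, 0], [0, 0, 0, 0, 0, 0, 0, -1]],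
  [[1, 2, 0, 0, 0, 0, 0, 0], [-1, -1, 0, 0, 0, -1, 0, 0], [0, 0, 0, 1, 0, 0, 0, 0], [0, 0, -1, 0, 0, 0, 0, -2], [0, 0, 0, 0, 0, 1, 0, 0], [-1, -2, 0, 0, -1, 0, 0, 0], [0, 0, 0, 0, 0, 0, 0, 1], [0, 0, 0, -1, 0, 0, -1, 0]],
  [[1, 0, 0, 0, 0, 2, 0, 0], [-1, -1, 0, 0, -1, -1, 0, 0], [0, 0, 1, 0, 0, 0, 0, 2], [0, 0, 0, -1, 0, 0, -2, 0], [1, 2, 0, 0, 1, 0, 0, 0], [-1, 0, 0, 0, 0, -1, 0, 0], [0, 0, 0, 1, 0, 0, 1, 0], [0, 0, -1, 0, 0, 0, 0, -1]],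
  [[1, 2, 0, 0, 2, 0, 0, 0], [-1, -1, 0, 0, -1, 0, 0, 0], [0, 0, 0, 1, 0, 0, 2, 0], [0, 0, -1, 0, 0, 0, 0, 0], [1, 0, 0, 0, 0, 1, 0, 0], [0, 0, 0, 0, -1, 0, 0, 0], [0, 0, 1, 0, 0, 0, 0, 1], [0, 0, 0, 0, 0, 0, -1, 0]],
  [[-1, 0, 0, -2, 0, -2, -2, 0], [1, 1, 0, 1, 0, 1, 1, 1], [2, 4, 1, 0, 2, 0, 0, 2], [0, 0, 0, -1, 0, -2, 0, 0], [-1, -2, -1, 0, -1, 0, 0, -2], [0, 0, 0, 1, 0, 1, 0, 0], [1, 0, 0, 1, 0, 2, 1, 0], [-1, -2, 0, 0, 0, 0, 0, -1]],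
  [[-1, -2, -2, 0, -2, 0, 0, -2], [1, 1, 1, 1, 1, 1, 1, 1], [2, 0, 0, 1, 0, 2, 2, 0], [-2, -4, -1, 0, -2, 0, 0, -2], [-1, 0, 0, -1, 0, -1, -2, 0], [1, 2, 1, 0, 1, 0, 0, 2], [1, 2, 1, 0, 2, 0, 0, 1], [-1, 0, 0, -1, 0, -2, -1, 0]],
  [[-1, 0, 0, 0, 0, 0, -2, 0], [1, 1, 1, 0, 1, 0, 1, 1], [0, 0, 1, 0, 2, 0, 0, 0], [-2, 0, 0, -1, 0, -2, -2, 0], [0, 0, -1, 0, -1, 0, 0, 0], [1, 0, 0, 1, 0, 1, 2, 0], [1, 0, 0, 0, 0, 0, 1, 0], [-1, -2, -1, 0, -2, 0, 0, -1]],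
  [[1, 2, 0, 0, 0, 0, 0, 2], [0, -1, 0, 0, 0, 0, 1, -1], [0, 0, 0, -1, 0, -2, 0, 0], [0, 0, -1, 0, -2, 0, 0, 0], [0, 0, 0, 1, 0, 1, 0, 0], [0, 0, 1, 0, 1, 0, 0, 0], [-1, -2, 0, 0, 0, 0, 0, -1], [-1, 0, 0, 0, 0, 0, -1, 0]],
  [[1, 0, 0, 2, 0, 2, 2, 0], [-1, -1, 0, -1, 0, -1, -1, -1], [-2, -4, -1, 0, -2, 0, 0, -2], [0, 0, 0, 1, 0, 2, 0, 0], [1, 2, 1, 0, 1, 0, 0, 2], [0, 0, 0, -1, 0, -1, 0, 0], [-1, 0, 0, -1, 0, -2, -1, 0], [1, 2, 0, 0, 0, 0, 0, 1]],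
  [[1, 2, 2, 0, 2, 0, 0, 2], [-1, -1, -1, -1, -1, -1, -1, -1], [-2, 0, 0, -1, 0, -2, -2, 0], [2, 4, 1, 0, 2, 0, 0, 2], [1, 0, 0, 1, 0, 1, 2, 0], [-1, -2, -1, 0, -1, 0, 0, -2], [-1, -2, -1, 0, -2, 0, 0, -1], [1, 0, 0, 1, 0, 2, 1, 0]],
  [[1, 0, 0, 0, 0, 0, 2, 0], [-1, -1, -1, 0, -1, 0, -1, -1], [0, 0, -1, 0, -2, 0, 0, 0], [2, 0, 0, 1, 0, 2, 2, 0], [0, 0, 1, 0, 1, 0, 0, 0], [-1, 0, 0, -1, 0, -1, -2, 0], [-1, 0, 0, 0, 0, 0, -1, 0], [1, 2, 1, 0, 2, 0, 0, 1]],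
  [[-1, -2, 0, 0, 0, 0, 0, -2], [0, 1, 0, 0, 0, 0, -1, 1], [0, 0, 0, 1, 0, 2, 0, 0], [0, 0, 1, 0, 2, 0, 0, 0], [0, 0, 0, -1, 0, -1, 0, 0], [0, 0, -1, 0, -1, 0, 0, 0], [1, 2, 0, 0, 0, 0, 0, 1], [1, 0, 0, 0, 0, 0, 1, 0]]]

def idx : Q → ℕ
  | .a i => i.val
  | .xa i => 8 + i.val

def rho (q : Q) : Matrix (Fin 8) (Fin 8) ℤ :=
  Matrix.of fun i j => ((tb.getD (idx q) []).getD i []).getD j 0

def c : Q → Fin 8 → ZMod 2
  | .a _, _ => 0
  | .xa _, i => if 6 ≤ i.val then 1 else 0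

theorem rho_mul0 : ∀ p q : Q, ∀ i j : Fin 8, rho (p * q) i j =
    rho p i 0 * rho q 0 j + rho p i 1 * rho q 1 j + rho p i 2 * rho q 2 j + rho p i 3 * rho q 3 j +
    rho p i 4 * rho q 4 j + rho p i 5 * rho q 5 j + rho p i 6 * rho q 6 j +
    rho p i 7 * rho q 7 j := by decide +kernel

theorem rho_mul (p q : Q) : rho (p * q) = rho p * rho q := by
  ext i j; rw [rho_mul0, Matrix.mul_apply, Fin.sum_univ_eight]

theorem rho_one : rho 1 = 1 := by decide +kernel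
theorem rho_z : rho (.a 4) = -1 := by decide +kernel
theorem pow_z : ∀ p : Q, p ≠ 1 → ∃ k : Fin 5, p ^ (k : ℕ) = .a 4 := by decide +kernel

def rb (q : Q) : Matrix (Fin 8) (Fin 8) (ZMod 2) := (rho q).map (Int.castRingHom _)

theorem c_mul : ∀ p q : Q, ∀ i, c (p * q) i = c p i + (rb p *ᵥ c q) i := by decide +kernel

def lin (p : Q) (a0 a1 a2 a3 a4 a5 a6 a7 : ZMod 2) (i : Fin 8) : ZMod 2 :=
  rb p i 0 * a0 + rb p i 1 * a1 + rb p i 2 * a2 + rb p i 3 * a3 + rb p i 4 * a4 + rb p i 5 * a5 +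
    rb p i 6 * a6 + rb p i 7 * a7

theorem key0 : ∀ a0 a1 a2 a3 a4 a5 a6 a7 : ZMod 2, ∀ p : Q,
    (∀ i, c p i = ![a0, a1, a2, a3, a4, a5, a6, a7] i - lin p a0 a1 a2 a3 a4 a5 a6 a7 i) →
    ∀ q : Q,
    (∀ i, c q i = ![a0, a1, a2, a3, a4, a5, a6, a7] i - lin q a0 a1 a2 a3 a4 a5 a6 a7 i) →
    p * q = q * p := by decide +kernel

theorem key (u : Fin 8 → ZMod 2) (p q : Q) (hp : ∀ i, c p i = u i - (rb p *ᵥ u) i)
    (hq : ∀ i, c q i = u i - (rb q *ᵥ u) i) : p * q = q * p := by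
  have e : ∀ i, ![u 0, u 1, u 2, u 3, u 4, u 5, u 6, u 7] i = u i := by
    intro i; fin_cases i <;> rfl
  refine key0 (u 0) (u 1) (u 2) (u 3) (u 4) (u 5) (u 6) (u 7) p (fun i => ?_) q (fun i => ?_)
  · rw [hp, e, mulVec, dotProduct, Fin.sum_univ_eight]; rfl
  · rw [hq, e, mulVec, dotProduct, Fin.sum_univ_eight]; rfl

noncomputable def R (q : Q) : Matrix (Fin 8) (Fin 8) Z := (rho q).map (Int.castRingHom _)

theorem R_mul (p q : Q) (v : V) : R (p * q) *ᵥ v = R p *ᵥ (R q *ᵥ v) := by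
  rw [mulVec_mulVec, R, rho_mul, Matrix.map_mul]; rfl
theorem R_one (v : V) : R 1 *ᵥ v = v := by
  rw [R, rho_one, Matrix.map_one _ (map_zero _) (map_one _), one_mulVec]
theorem R_z (v : V) : R (.a 4) *ᵥ v = -v := by
  rw [R, rho_z, Matrix.map_neg _ (map_neg _), Matrix.map_one _ (map_zero _) (map_one _),
    neg_mulVec, one_mulVec]

noncomputable def red : Z →+* ZMod 2 := PadicInt.toZMod

theorem red_zero (x : Z) : red x = 0 ↔ ‖x‖ < 1 := by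
  rw [← PadicInt.mem_nonunits, ← IsLocalRing.mem_maximalIdeal, ← PadicInt.ker_toZMod]; rfl

theorem red_dvd (x : Z) (h : red x = 0) : ∃ y, x = 2 * y := by
  obtain ⟨y, hy⟩ := (PadicInt.norm_lt_one_iff_dvd x).1 ((red_zero x).1 h)
  exact ⟨y, by simpa using hy⟩

theorem red_cont : Continuous red := by
  refine continuous_of_continuousAt_zero red.toAddMonoidHom ?_
  rw [ContinuousAt, map_zero, nhds_discrete (ZMod 2), Filter.tendsto_pure]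
  filter_upwards [Metric.ball_mem_nhds (0 : Z) one_pos] with x hx
  exact (red_zero x).2 (by simpa using hx)

theorem red_R (q : Q) (v : V) (i : Fin 8) : red ((R q *ᵥ v) i) = (rb q *ᵥ fun j => red (v j)) i := by
  simp [mulVec, dotProduct, R, rb]

instance : TopologicalSpace Q := ⊥
instance : DiscreteTopology Q := ⟨rfl⟩

def Gam : Type := V × Q

noncomputable instance : TopologicalSpace Gam := inferInstanceAs (TopologicalSpace (V × Q))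
instance : CompactSpace Gam := inferInstanceAs (CompactSpace (V × Q))
instance : T2Space Gam := inferInstanceAs (T2Space (V × Q))
instance : TotallyDisconnectedSpace Gam := inferInstanceAs (TotallyDisconnectedSpace (V × Q))

noncomputable instance : Group Gam where
  mul g h := (g.1 + R g.2 *ᵥ h.1, g.2 * h.2)
  one := (0, 1)
  inv g := (-(R g.2⁻¹ *ᵥ g.1), g.2⁻¹)
  mul_assoc g h k := by
    refine Prod.ext ?_ (mul_assoc _ _ _)
    change g.1 + R g.2 *ᵥ h.1 + R (g.2 * h.2) *ᵥ k.1 = g.1 + R g.2 *ᵥ (h.1 + R h.2 *ᵥ k.1)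
    rw [R_mul, mulVec_add, add_assoc]
  one_mul g := by
    refine Prod.ext ?_ (one_mul _)
    change 0 + R 1 *ᵥ g.1 = g.1
    rw [R_one, zero_add]
  mul_one g := by
    refine Prod.ext ?_ (mul_one _)
    change g.1 + R g.2 *ᵥ 0 = g.1
    rw [mulVec_zero, add_zero]
  inv_mul_cancel g := by
    refine Prod.ext ?_ (inv_mul_cancel _)
    exact neg_add_cancel _

theorem mul_1 (g h : Gam) : (g * h).1 = g.1 + R g.2 *ᵥ h.1 := rfl
theorem mul_2 (g h : Gam) : (g * h).2 = g.2 * h.2 := rfl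
theorem inv_1 (g : Gam) : (g⁻¹).1 = -(R g.2⁻¹ *ᵥ g.1) := rfl
theorem inv_2 (g : Gam) : (g⁻¹).2 = g.2⁻¹ := rfl

theorem c1 : Continuous (fun g : Gam => g.1) := continuous_fst
theorem c2 : Continuous (fun g : Gam => g.2) := continuous_snd

instance : IsTopologicalGroup Gam where
  continuous_mul := by
    have hR : Continuous R := continuous_of_discreteTopology
    have hm : Continuous (fun p : Q × Q => p.1 * p.2) := continuous_of_discreteTopology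
    exact ((c1.comp continuous_fst).add ((hR.comp (c2.comp continuous_fst)).matrix_mulVec
      (c1.comp continuous_snd))).prodMk
      (hm.comp ((c2.comp continuous_fst).prodMk (c2.comp continuous_snd)))
  continuous_inv := by
    have hR : Continuous (fun q => R q⁻¹) := continuous_of_discreteTopology
    have hm : Continuous (fun p : Q => p⁻¹) := continuous_of_discreteTopology
    exact (((hR.comp c2).matrix_mulVec c1).neg).prodMk (hm.comp c2)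

noncomputable def G : Subgroup Gam where
  carrier := {g | ∀ i, red (g.1 i) = c g.2 i}
  one_mem' i := map_zero red
  mul_mem' {g h} hg hh i := by
    rw [mul_1, mul_2, Pi.add_apply, map_add, red_R, c_mul, hg i, funext hh]
  inv_mem' {g} hg i := by
    have := c_mul g.2⁻¹ g.2 i
    rw [inv_mul_cancel] at this
    rw [inv_1, inv_2, Pi.neg_apply, map_neg, red_R, funext hg]
    exact neg_eq_of_add_eq_zero_left this.symm

theorem G_closed : IsClosed (G : Set Gam) := by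
  have hc : Continuous fun g : Gam => ((fun i => red (g.1 i)), g.2) :=
    (continuous_pi fun i => red_cont.comp ((continuous_apply i).comp c1)).prodMk c2
  exact (isClosed_discrete {p : (Fin 8 → ZMod 2) × Q | ∀ i, p.1 i = c p.2 i}).preimage hc

instance : CompactSpace G := isCompact_iff_compactSpace.1 G_closed.isCompact

noncomputable def pr : Gam →* Q where
  toFun g := g.2
  map_one' := rfl
  map_mul' _ _ := rfl

theorem two_cancel (v w : V) (h : v + v = w + w) : v = w := by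
  ext1 i
  have := congrFun h i
  simp only [Pi.add_apply] at this
  exact mul_left_cancel₀ (show (2 : Z) ≠ 0 by norm_num) (by linear_combination this)

theorem free (p : Q) (t : V) (ht : t ≠ 0) (h : R p *ᵥ t = t) : p = 1 := by
  by_contra hp
  obtain ⟨k, hk⟩ := pow_z p hp
  have : ∀ n : ℕ, R (p ^ n) *ᵥ t = t := by
    intro n
    induction n with
    | zero => rw [pow_zero, R_one]
    | succ n ih => rw [pow_succ, R_mul, h, ih]
  have h2 := this k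
  rw [hk, R_z] at h2
  apply ht
  apply two_cancel
  rw [add_zero]
  exact neg_eq_iff_add_eq_zero.1 h2

theorem comm_ker (y z : Gam) (hy : y.2 = 1) (hz : z.2 = 1) : y * z = z * y := by
  refine Prod.ext ?_ ?_
  · rw [mul_1, mul_1, hy, hz, R_one, R_one, add_comm]
  · rw [mul_2, mul_2, hy, hz]

theorem ca (g y z : Gam) (hg : g ∈ G) (hy : y ∈ G) (hz : z ∈ G) (hg1 : g ≠ 1)
    (h1 : g * y = y * g) (h2 : g * z = z * g) : y * z = z * y := by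
  by_cases hq : g.2 = 1
  · have ht : g.1 ≠ 0 := fun h => hg1 (Prod.ext h hq)
    have : ∀ y : Gam, g * y = y * g → y.2 = 1 := by
      intro y h
      have := congrArg Prod.fst h
      rw [mul_1, mul_1, hq, R_one, add_comm] at this
      exact free _ _ ht (add_left_cancel this).symm
    exact comm_ker y z (this y h1) (this z h2)
  · obtain ⟨k, hk⟩ := pow_z g.2 hq
    have hk' : (g ^ (k : ℕ)).2 = .a 4 := (map_pow pr g k).trans hk
    have hm := G.pow_mem hg k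
    choose u hu using fun i => red_dvd _ ((hm i).trans (by rw [hk']; rfl))
    have hu' : (g ^ (k : ℕ)).1 = u + u := funext fun i => by rw [hu, two_mul]; rfl
    have : ∀ y : Gam, g * y = y * g → y.1 = u - R y.2 *ᵥ u := by
      intro y h
      have := congrArg Prod.fst ((show Commute g y from h).pow_left k).eq
      rw [mul_1, mul_1, hk', R_z, hu', mulVec_add] at this
      apply two_cancel
      linear_combination (exp := 1) -this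
    have e1 := this y h1
    have e2 := this z h2
    have hc := key (fun j => red (u j)) y.2 z.2
      (fun i => by rw [← hy i, e1, Pi.sub_apply, map_sub, red_R])
      (fun i => by rw [← hz i, e2, Pi.sub_apply, map_sub, red_R])
    refine Prod.ext ?_ hc
    rw [mul_1, mul_1, e1, e2, mulVec_sub, mulVec_sub, ← R_mul, ← R_mul, hc]
    abel

theorem result : ∃ n : ℕ, 4 ≤ n ∧ ∃ (Γ : Type) (_ : Group Γ) (_ : TopologicalSpace Γ),
    IsTopologicalGroup Γ ∧ CompactSpace Γ ∧ T2Space Γ ∧ TotallyDisconnectedSpace Γ ∧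
    (∀ x : Γ, x ≠ 1 → ∀ y ∈ Subgroup.centralizer {x}, ∀ z ∈ Subgroup.centralizer {x},
      y * z = z * y) ∧
    ∃ (N : Subgroup Γ) (_ : N.Normal), IsClosed (N : Set Γ) ∧ (∀ y ∈ N, ∀ z ∈ N, y * z = z * y) ∧
      Nonempty (Γ ⧸ N ≃* QuaternionGroup (2 ^ (n - 2))) := by
  refine ⟨4, le_rfl, G, inferInstance, inferInstance, inferInstance, inferInstance, inferInstance,
    inferInstance, ?_, (pr.comp G.subtype).ker, inferInstance, ?_, ?_, ⟨?_⟩⟩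
  · intro x hx y hy z hz
    exact Subtype.ext (ca x y z x.2 y.2 z.2 (fun h => hx (Subtype.ext h))
      (congrArg Subtype.val (hy x rfl)) (congrArg Subtype.val (hz x rfl)))
  · exact (isClosed_discrete {(1 : Q)}).preimage (c2.comp continuous_subtype_val)
  · intro y hy z hz
    exact Subtype.ext (comm_ker _ _ hy hz)
  · refine QuotientGroup.quotientKerEquivOfSurjective (pr.comp G.subtype) fun q => ?_
    exact ⟨⟨(fun i => ((c q i).val : Z), q), fun i => by simp⟩, rfl⟩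

end Pool.Agent.Results.MP_427463_al.Q16
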